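import Pool.Agent.Y325.BG.Stm

set_option autoImplicit false

open Filter Topology

namespace Pool.Agent.Y585.BG.Avg

open Pool.Agent.Y325.BG

universe u v

theorem t1 : Pool.Agent.Y325.BG.StmAvg.{v} := by
  intro 𝓗 _ _ F C hC horth
  have hsum : ∀ n : ℕ, ‖∑ i ∈ Finset.range n, F i‖ ^ 2 ≤ n * C ^ 2 := by
    intro n
    induction n with
    | zero => simp
    | succ n ih =>
      rw [Finset.sum_range_succ, norm_add_sq (𝕜 := ℂ)]
      have h0 : inner ℂ (∑ i ∈ Finset.range n, F i) (F n) = 0 := by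
        rw [sum_inner]
        apply Finset.sum_eq_zero
        intro i hi
        exact horth i n (ne_of_lt (Finset.mem_range.1 hi))
      rw [h0]
      have h1 : ‖F n‖ ^ 2 ≤ C ^ 2 := pow_le_pow_left₀ (norm_nonneg _) (hC n) 2
      simp only [map_zero, mul_zero, add_zero]
      push_cast
      nlinarith
  rw [tendsto_zero_iff_norm_tendsto_zero]
  have hb : ∀ n : ℕ, ‖((n : ℂ))⁻¹ • ∑ i ∈ Finset.range n, F i‖ ≤ Real.sqrt (C ^ 2 * (n : ℝ)⁻¹) := by
    intro n
    apply Real.le_sqrt_of_sq_le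
    rw [norm_smul, mul_pow, norm_inv, Complex.norm_natCast]
    rcases Nat.eq_zero_or_pos n with h0 | h0
    · subst h0; simp
    · have hn : (0 : ℝ) < n := by exact_mod_cast h0
      calc ((n : ℝ)⁻¹) ^ 2 * ‖∑ i ∈ Finset.range n, F i‖ ^ 2
          ≤ ((n : ℝ)⁻¹) ^ 2 * (n * C ^ 2) := mul_le_mul_of_nonneg_left (hsum n) (by positivity)
        _ = C ^ 2 * (n : ℝ)⁻¹ := by field_simp
  have hlim : Tendsto (fun n : ℕ => Real.sqrt (C ^ 2 * (n : ℝ)⁻¹)) atTop (𝓝 0) := by
    have h1 : Tendsto (fun n : ℕ => C ^ 2 * (n : ℝ)⁻¹) atTop (𝓝 (C ^ 2 * 0)) :=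
      (tendsto_inv_atTop_nhds_zero_nat (𝕜 := ℝ)).const_mul _
    rw [mul_zero] at h1
    have h2 := (Real.continuous_sqrt.tendsto 0).comp h1
    rw [Real.sqrt_zero] at h2
    exact h2
  exact squeeze_zero (fun _ => norm_nonneg _) hb hlim

theorem t2 : Pool.Agent.Y325.BG.StmSeq.{u} := by
  classical
  intro E _ _ hE f hf
  have key : ∀ s : Finset E, (∀ x ∈ s, ‖x‖ = 1 ∧ inner ℝ f x = 0) →
      ∃ y, (‖y‖ = 1 ∧ inner ℝ f y = 0) ∧ ∀ x ∈ s, inner ℝ x y = 0 := by
    intro s _
    let W : Submodule ℝ E := Submodule.span ℝ ((insert f s : Finset E) : Set E)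
    haveI : FiniteDimensional ℝ W := FiniteDimensional.span_finset ℝ (insert f s)
    have hW : W ≠ ⊤ := by
      intro h
      apply hE
      have h2 : FiniteDimensional ℝ (⊤ : Submodule ℝ E) := by rw [← h]; infer_instance
      exact Module.Finite.equiv (Submodule.topEquiv (R := ℝ) (M := E))
    have hW2 : Wᗮ ≠ ⊥ := by
      intro h
      exact hW (Submodule.orthogonal_eq_bot_iff.1 h)
    obtain ⟨y, hy, hy0⟩ := Submodule.exists_mem_ne_zero_of_ne_bot hW2
    rw [Submodule.mem_orthogonal] at hy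
    have hn : ‖y‖ ≠ 0 := norm_ne_zero_iff.2 hy0
    refine ⟨‖y‖⁻¹ • y, ⟨?_, ?_⟩, ?_⟩
    · rw [norm_smul, norm_inv, norm_norm, inv_mul_cancel₀ hn]
    · rw [inner_smul_right, hy f (Submodule.subset_span (by simp)), mul_zero]
    · intro x hx
      rw [inner_smul_right, hy x (Submodule.subset_span (by simp [hx])), mul_zero]
  obtain ⟨g, hg1, hg2⟩ := exists_seq_of_forall_finset_exists
    (fun x : E => ‖x‖ = 1 ∧ inner ℝ f x = 0) (fun x y => inner ℝ x y = 0) key
  refine ⟨fun n => Nat.casesOn n f g, ?_, rfl⟩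
  constructor
  · intro n
    cases n with
    | zero => exact hf
    | succ n => exact (hg1 n).1
  · intro i j hij
    change inner ℝ _ _ = (0 : ℝ)
    cases i with
    | zero =>
      cases j with
      | zero => exact absurd rfl hij
      | succ j => exact (hg1 j).2
    | succ i =>
      cases j with
      | zero => rw [real_inner_comm]; exact (hg1 i).2
      | succ j =>
        have hne : i ≠ j := fun h => hij (by rw [h])
        rcases lt_or_gt_of_ne hne with h | h
        · exact hg2 i j h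
        · rw [real_inner_comm]; exact hg2 j i h

end Pool.Agent.Y585.BG.Avg
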