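import Pool.Agent.Y325.BG.Stm

set_option autoImplicit false

open Filter Topology

namespace Pool.Agent.Y585.BG.Comm

open Pool.Agent.Y325.BG

universe u v

theorem t (hR : StmR.{v}) (hder : StmDer.{u,v}) : Pool.Agent.Y325.BG.StmComm.{u,v} := by
  intro 𝓗 _ _ _ E _ _ M Ω S U h f γ hγ x hx
  have hUU : ∀ s t : ℝ, U (s • f) * U (t • f) = U (t • f) * U (s • f) := by
    intro s t
    rw [← h.U_add, ← h.U_add, add_comm]
  -- the generator on `a Ω`
  have hgen : ∀ (a R : 𝓗 →L[ℂ] 𝓗), R Ω = a Ω → (∀ y ∈ M, R * y = y * R) →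
      Gen U f (a Ω) (R γ) := by
    intro a R h1 h2
    have h3 := (R.continuous.tendsto γ).comp hγ
    refine h3.congr ?_
    intro t
    simp only [Function.comp]
    rw [map_smul, map_sub, h1]
    congr 2
    have := congrArg (fun T : 𝓗 →L[ℂ] 𝓗 => T Ω) (h2 (U (t • f)) (h.U_mem _))
    simp only [ContinuousLinearMap.mul_apply] at this
    rw [this, h1]
  -- the generator commutes with the group
  have hgenU : ∀ (ξ η : 𝓗) (t : ℝ), Gen U f ξ η → Gen U f (U (t • f) ξ) (U (t • f) η) := by
    intro ξ η t h1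
    have h3 := ((U (t • f)).continuous.tendsto η).comp h1
    refine h3.congr ?_
    intro s
    simp only [Function.comp]
    rw [map_smul, map_sub]
    congr 2
    have := congrArg (fun T : 𝓗 →L[ℂ] 𝓗 => T ξ) (hUU t s)
    simpa only [ContinuousLinearMap.mul_apply] using this
  have huniq : ∀ (ξ η η' : 𝓗), Gen U f ξ η → Gen U f ξ η' → η = η' :=
    fun ξ η η' h1 h2 => tendsto_nhds_unique h1 h2
  -- the main identity
  have hmain : ∀ a ∈ M, ∀ a' ∈ M, ∀ t : ℝ,
      inner ℂ (U (t • f) (a' Ω)) (x (U (t • f) (a Ω))) = inner ℂ (a' Ω) (x (a Ω)) := by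
    intro a ha a' ha' t
    obtain ⟨R, hRΩ, hRM⟩ := hR h.cyclic h.tracial ha
    obtain ⟨R', hRΩ', hRM'⟩ := hR h.cyclic h.tracial ha'
    have hd : ∀ t : ℝ, HasDerivAt (fun s : ℝ => U (s • f) (a Ω))
        (Complex.I • U (t • f) (R γ)) t :=
      hder h.U_zero h.U_add (hgen a R hRΩ hRM)
    have hd' : ∀ t : ℝ, HasDerivAt (fun s : ℝ => U (s • f) (a' Ω))
        (Complex.I • U (t • f) (R' γ)) t :=
      hder h.U_zero h.U_add (hgen a' R' hRΩ' hRM')
    -- derivative of φ
    have hφ : ∀ t : ℝ, HasDerivAt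
        (fun s : ℝ => inner ℂ (U (s • f) (a' Ω)) (x (U (s • f) (a Ω)))) 0 t := by
      intro t
      have hxd : HasDerivAt (fun s : ℝ => x (U (s • f) (a Ω)))
          (x (Complex.I • U (t • f) (R γ))) t := by
        have h1 := (x.restrictScalars ℝ).hasFDerivAt.comp_hasDerivAt t (hd t)
        exact h1
      have h1 := (hd' t).inner ℂ hxd
      -- the two operators for U_t a, U_t a'
      have hb : U (t • f) * a ∈ M := mul_mem (h.U_mem _) ha
      have hb' : U (t • f) * a' ∈ M := mul_mem (h.U_mem _) ha'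
      obtain ⟨Rb, hRbΩ, hRbM⟩ := hR h.cyclic h.tracial hb
      obtain ⟨Rb', hRbΩ', hRbM'⟩ := hR h.cyclic h.tracial hb'
      have e1 : Rb γ = U (t • f) (R γ) :=
        huniq _ _ _ (hgen _ Rb hRbΩ hRbM) (hgenU _ _ t (hgen a R hRΩ hRM))
      have e2 : Rb' γ = U (t • f) (R' γ) :=
        huniq _ _ _ (hgen _ Rb' hRbΩ' hRbM') (hgenU _ _ t (hgen a' R' hRΩ' hRM'))
      have h2 := hx _ hb _ hb' Rb Rb' hRbΩ hRbΩ' hRbM hRbM'
      rw [e1, e2, hRbΩ, hRbΩ'] at h2
      simp only [ContinuousLinearMap.mul_apply] at h2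
      have h3 : inner ℂ (U (t • f) (a' Ω)) (x (Complex.I • U (t • f) (R γ)))
          + inner ℂ (Complex.I • U (t • f) (R' γ)) (x (U (t • f) (a Ω))) = 0 := by
        rw [map_smul, inner_smul_right, inner_smul_left, Complex.conj_I, h2]
        ring
      rw [h3] at h1
      exact h1
    have hconst : ∀ s t : ℝ, inner ℂ (U (s • f) (a' Ω)) (x (U (s • f) (a Ω)))
        = inner ℂ (U (t • f) (a' Ω)) (x (U (t • f) (a Ω))) := by
      intro s t
      exact is_const_of_deriv_eq_zero (fun r => (hφ r).differentiableAt)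
        (fun r => (hφ r).deriv) s t
    rw [hconst t 0, zero_smul, h.U_zero]
    rfl
  intro t
  -- density
  have hd1 : ∀ a' ∈ M, ∀ η : 𝓗, inner ℂ (U (t • f) (a' Ω)) (x (U (t • f) η))
      = inner ℂ (a' Ω) (x η) := by
    intro a' ha'
    have : (fun η : 𝓗 => inner ℂ (U (t • f) (a' Ω)) (x (U (t • f) η)))
        = fun η => inner ℂ (a' Ω) (x η) := by
      apply Continuous.ext_on h.cyclic
      · exact continuous_const.inner (x.continuous.comp (U (t • f)).continuous)
      · exact continuous_const.inner x.continuous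
      · rintro η ⟨a, ha, rfl⟩
        exact hmain a ha a' ha' t
    intro η
    exact congrFun this η
  have hd2 : ∀ ξ η : 𝓗, inner ℂ (U (t • f) ξ) (x (U (t • f) η)) = inner ℂ ξ (x η) := by
    intro ξ η
    have : (fun ξ : 𝓗 => inner ℂ (U (t • f) ξ) (x (U (t • f) η)))
        = fun ξ => inner ℂ ξ (x η) := by
      apply Continuous.ext_on h.cyclic
      · exact (U (t • f)).continuous.inner continuous_const
      · exact continuous_id.inner continuous_const
      · rintro ξ ⟨a, ha, rfl⟩
        exact hd1 a ha η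
    exact congrFun this ξ
  have hstar : star (U (t • f)) * (x * U (t • f)) = x := by
    ext η
    apply ext_inner_left ℂ
    intro ξ
    rw [ContinuousLinearMap.mul_apply, ContinuousLinearMap.star_eq_adjoint,
      ContinuousLinearMap.adjoint_inner_right, ContinuousLinearMap.mul_apply]
    exact hd2 ξ η
  have hunit : U (t • f) * star (U (t • f)) = 1 := by
    rw [h.U_star, ← h.U_add, add_neg_cancel, h.U_zero]
  calc x * U (t • f) = (U (t • f) * star (U (t • f))) * (x * U (t • f)) := by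
        rw [hunit, one_mul]
    _ = U (t • f) * (star (U (t • f)) * (x * U (t • f))) := by rw [mul_assoc]
    _ = U (t • f) * x := by rw [hstar]

end Pool.Agent.Y585.BG.Comm
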