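import Pool.Agent.Y325.BG.Stm

set_option autoImplicit false

open Filter Topology

namespace Pool.Agent.Y585.BG.Wick

open Pool.Agent.Y325.BG

universe u v

section
variable {𝓗 : Type v} [NormedAddCommGroup 𝓗] [InnerProductSpace ℂ 𝓗]
    [CompleteSpace 𝓗] {E : Type u} [NormedAddCommGroup E] [InnerProductSpace ℝ E]
    {M : VonNeumannAlgebra 𝓗} {Ω : 𝓗} {S U : E → 𝓗 →L[ℂ] 𝓗}

theorem tr_one (h : Realisation M Ω S U) : tr Ω 1 = 1 := by
  unfold tr
  rw [ContinuousLinearMap.one_apply, inner_self_eq_norm_sq_to_K, h.norm_Ω]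
  simp

theorem T1 (h : Realisation M Ω S U) (a : E) : tr Ω (S a) = 0 := by
  have := h.wick a []
  simpa using this

theorem T2 (h : Realisation M Ω S U) (a b : E) :
    tr Ω (S a * S b) = ((inner ℝ a b : ℝ) : ℂ) := by
  have := h.wick a [b]
  simpa [tr_one h] using this

theorem T3 (h : Realisation M Ω S U) (a b c : E) : tr Ω (S a * (S b * S c)) = 0 := by
  have := h.wick a [b, c]
  simpa [tr_one h, Fin.sum_univ_succ, T1 h] using this

theorem T4 (h : Realisation M Ω S U) (a b c d : E) : tr Ω (S a * (S b * (S c * S d))) =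
    ((inner ℝ a b : ℝ) : ℂ) * ((inner ℝ c d : ℝ) : ℂ)
      + ((inner ℝ a d : ℝ) : ℂ) * ((inner ℝ b c : ℝ) : ℂ) := by
  have := h.wick a [b, c, d]
  simpa [tr_one h, Fin.sum_univ_succ, T1 h, T2 h] using this

theorem T6 (h : Realisation M Ω S U) (a b c d e g : E) :
    tr Ω (S a * (S b * (S c * (S d * (S e * S g))))) =
    ((inner ℝ a b : ℝ) : ℂ) * tr Ω (S c * (S d * (S e * S g)))
      + (((inner ℝ a d : ℝ) : ℂ) * (((inner ℝ b c : ℝ) : ℂ) * ((inner ℝ e g : ℝ) : ℂ))
      + ((inner ℝ a g : ℝ) : ℂ) * tr Ω (S b * (S c * (S d * S e)))) := by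
  have := h.wick a [b, c, d, e, g]
  simpa [tr_one h, Fin.sum_univ_succ, T1 h, T2 h, T3 h] using this

end

theorem t : Pool.Agent.Y325.BG.StmWick.{u,v} := by
  intro 𝓗 _ _ _ E _ _ M Ω S U h e he
  have hi : ∀ i j, inner ℝ (e i) (e j) = if i = j then (1 : ℝ) else 0 :=
    orthonormal_iff_ite.1 he
  refine ⟨fun i => T1 h _, fun i j => ?_, fun i h0 => ?_, fun i h0 => ?_, fun i j h0 h1 => ?_⟩
  · rw [T2 h, hi]
    split_ifs <;> simp
  · rw [mul_assoc, T4 h]
    simp only [hi, if_neg h0]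
    simp
  · rw [mul_assoc, T4 h]
    simp only [hi, if_neg (Ne.symm h0)]
    simp
  · have e1 : S (e 0) * S (e i) * (S (e j) * S (e 0)) * (S (e j) * S (e i))
        = S (e 0) * (S (e i) * (S (e j) * (S (e 0) * (S (e j) * S (e i))))) := by
      simp only [mul_assoc]
    rw [e1, T6 h, hi, hi, hi, hi, if_neg (Ne.symm h0)]
    by_cases hij : i = j
    · subst hij; simp
    · rw [if_neg hij]
      simp [hi, Ne.symm h0, hij]

end Pool.Agent.Y585.BG.Wick
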